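import Pool.Agent.Helper18_X2.Stmts

/-! # AWC, part X2, module PRM: automorphisms permute the factors of a product of commuting
quasisimple groups -/

set_option autoImplicit false

namespace Pool.Agent.PP.X2.H94

open scoped commutatorElement
open Pool.Agent.Helper51_AWC Pool.Agent.Helper79_WRA Pool.Agent.PP Pool.Agent.PP.X2

section basics
variable {H : Type} [Group H]

theorem perf {K : Subgroup H} (h : commutator K = ⊤) : ⁅K, K⁆ = K := by
  have h1 := congrArg (Subgroup.map K.subtype) h
  rw [commutator_def, Subgroup.map_commutator, ← MonoidHom.range_eq_map,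
    Subgroup.range_subtype] at h1
  exact h1

/-- three subgroups lemma -/
theorem tsl {K L : Subgroup H} (hK : ⁅K, K⁆ = K)
    (h : ∀ x ∈ K, ∀ y ∈ L, ∀ z ∈ K, ⁅x, y⁆ * z = z * ⁅x, y⁆) :
    ∀ x ∈ K, ∀ y ∈ L, x * y = y * x := by
  have h1 : ⁅K, L⁆ ≤ Subgroup.centralizer (K : Set H) := by
    rw [Subgroup.commutator_le]
    intro x hx y hy
    rw [Subgroup.mem_centralizer_iff]
    intro z hz
    exact (h x hx y hy z hz).symm
  have h2 : ⁅⁅K, L⁆, K⁆ = ⊥ := Subgroup.commutator_eq_bot_iff_le_centralizer.mpr h1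
  have h3 : ⁅⁅L, K⁆, K⁆ = ⊥ := by
    rw [Subgroup.commutator_comm L K]
    exact h2
  have h4 : ⁅⁅K, K⁆, L⁆ = ⊥ := Subgroup.commutator_commutator_eq_bot_of_rotate h2 h3
  rw [hK, Subgroup.commutator_eq_bot_iff_le_centralizer] at h4
  intro x hx y hy
  exact (Subgroup.mem_centralizer_iff.mp (h4 hx) y hy).symm

/-- `E` acts on every factor by inner automorphisms -/
theorem dec {E : Subgroup H} {I : Type} {K : I → Subgroup H}
    (hc : ∀ i j, i ≠ j → ∀ x ∈ K i, ∀ y ∈ K j, x * y = y * x) (hs : (⨆ i, K i) = E)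
    {x : H} (hx : x ∈ E) (i : I) : ∃ k ∈ K i, ∃ c ∈ E, x = k * c ∧ ∀ y ∈ K i, c * y = y * c := by
  have hle : ∀ j, K j ≤ E := fun j => hs ▸ le_iSup K j
  let P : Subgroup H :=
    { carrier := {x | ∃ k ∈ K i, ∃ c ∈ E, x = k * c ∧ ∀ y ∈ K i, c * y = y * c}
      mul_mem' := by
        rintro a b ⟨k, hk, c, hcE, rfl, h1⟩ ⟨k', hk', c', hcE', rfl, h2⟩
        refine ⟨k * k', (K i).mul_mem hk hk', c * c', E.mul_mem hcE hcE', ?_, ?_⟩
        · have h3 := h1 k' hk'
          calc k * c * (k' * c') = k * (c * k') * c' := by group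
            _ = k * (k' * c) * c' := by rw [h3]
            _ = k * k' * (c * c') := by group
        · intro y hy
          rw [mul_assoc, h2 y hy, ← mul_assoc, h1 y hy, mul_assoc]
      one_mem' := ⟨1, (K i).one_mem, 1, E.one_mem, by rw [mul_one], fun y _ => by
        rw [one_mul, mul_one]⟩
      inv_mem' := by
        rintro a ⟨k, hk, c, hcE, rfl, h1⟩
        refine ⟨k⁻¹, (K i).inv_mem hk, c⁻¹, E.inv_mem hcE, ?_, ?_⟩
        · have h2 := h1 k hk
          rw [mul_inv_rev, ← mul_inv_rev, ← mul_inv_rev, ← h2]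
        · intro y hy
          have h2 := h1 y hy
          calc c⁻¹ * y = c⁻¹ * (y * c) * c⁻¹ := by group
            _ = c⁻¹ * (c * y) * c⁻¹ := by rw [h2]
            _ = y * c⁻¹ := by group }
  have hP : E ≤ P := by
    rw [← hs]
    apply iSup_le
    intro j
    by_cases hij : j = i
    · subst hij
      intro y hy
      exact ⟨y, hy, 1, E.one_mem, by rw [mul_one], fun z _ => by rw [one_mul, mul_one]⟩
    · intro y hy
      exact ⟨1, (K i).one_mem, y, hle j hy, by rw [one_mul], fun z hz => hc j i hij y hy z hz⟩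
  exact hP hx

/-- an element which commutes with all factors is central -/
theorem cen {E : Subgroup H} {I : Type} {K : I → Subgroup H} (hs : (⨆ i, K i) = E)
    {x : H} (h : ∀ i, ∀ y ∈ K i, x * y = y * x) : ∀ y ∈ E, x * y = y * x := by
  have h1 : E ≤ Subgroup.centralizer ({x} : Set H) := by
    rw [← hs]
    apply iSup_le
    intro i y hy
    rw [Subgroup.mem_centralizer_singleton_iff]
    exact (h i y hy).symm
  intro y hy
  have h2 := Subgroup.mem_centralizer_singleton_iff.mp (h1 hy)
  exact h2.symm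

end basics

/-- PRM -/
theorem prm : QuaStmt → PrmStmt := by
  intro hq ℓ 𝒜 H _ E I _ K hL
  have hle : ∀ j, K j ≤ E := fun j => hL.sup ▸ le_iSup K j
  have hnab : ∀ (L : Subgroup H) (S : Type) [Group S], NonabSimple S → CovS L S →
      ¬ ∀ x ∈ L, ∀ y ∈ L, x * y = y * x := by
    intro L S _ hS hc h
    apply (hq L S hS hc).2.1
    intro x y
    exact Subtype.ext (h x x.2 y y.2)
  have hnor : ∀ j, ∀ x ∈ E, ∀ y ∈ K j, x * y * x⁻¹ ∈ K j := by
    intro j x hx y hy
    obtain ⟨k, hk, c, -, rfl, h1⟩ := dec hL.comm hL.sup hx j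
    have h2 : k * c * y * (k * c)⁻¹ = k * y * k⁻¹ := by
      calc k * c * y * (k * c)⁻¹ = k * (c * y) * c⁻¹ * k⁻¹ := by group
        _ = k * (y * c) * c⁻¹ * k⁻¹ := by rw [h1 y hy]
        _ = k * y * k⁻¹ := by group
    rw [h2]
    exact (K j).mul_mem ((K j).mul_mem hk hy) ((K j).inv_mem hk)
  refine ⟨?_, ?_, fun x hx i => dec hL.comm hL.sup hx i, fun x _ h => cen hL.sup h⟩
  · intro i j hij
    by_contra hne
    obtain ⟨S, _, _, hS, -, -, hc⟩ := hL.cov i
    apply hnab (K i) S hS hc
    intro x hx y hy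
    exact hL.comm i j hne x hx y (hij ▸ hy)
  · intro g hg i
    obtain ⟨S, _, _, hS, -, -, hc⟩ := hL.cov i
    obtain ⟨L, hLdef⟩ : ∃ L, L = (K i).map (MulAut.conj g).toMonoidHom := ⟨_, rfl⟩
    have hmem : ∀ x, x ∈ L ↔ ∃ k ∈ K i, g * k * g⁻¹ = x := by
      intro x
      rw [hLdef]
      exact Iff.rfl
    have hg1 : ∀ x ∈ E, g * x * g⁻¹ ∈ E := fun x hx =>
      (Subgroup.mem_normalizer_iff.mp hg x).mp hx
    have hg2 : ∀ x ∈ E, g⁻¹ * x * g ∈ E := fun x hx =>
      (Subgroup.mem_normalizer_iff.mp hg (g⁻¹ * x * g)).mpr (by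
        have : g * (g⁻¹ * x * g) * g⁻¹ = x := by group
        rw [this]
        exact hx)
    have hLE : L ≤ E := by
      intro x hx
      obtain ⟨k, hk, rfl⟩ := (hmem x).mp hx
      exact hg1 k (hle i hk)
    have hLn : ∀ x ∈ E, ∀ y ∈ L, x * y * x⁻¹ ∈ L := by
      intro x hx y hy
      obtain ⟨k, hk, rfl⟩ := (hmem y).mp hy
      rw [hmem]
      refine ⟨_, hnor i _ (hg2 x hx) k hk, ?_⟩
      group
    have hcL : CovS L S := by
      have hsurj : Function.Surjective ((MulAut.conj g).toMonoidHom.subgroupMap (K i)) :=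
        MonoidHom.subgroupMap_surjective _ _
      rw [hLdef]
      rcases (hq (K i) S hS hc).2.2.2.2.1 _ _ hsurj with h1 | h1
      · exfalso
        apply hnab (K i) S hS hc
        intro x hx y hy
        have h2 := congrArg Subtype.val (h1 ⟨x, hx⟩)
        have h3 : g * x * g⁻¹ = 1 := h2
        have h4 : x = 1 := by
          have : x = g⁻¹ * (g * x * g⁻¹) * g := by group
          rw [this, h3]
          group
        rw [h4, one_mul, mul_one]
      · exact h1
    have key : ∃ j, K j ≤ L := by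
      by_contra hno
      push Not at hno
      have h1 : ∀ j, ∀ x ∈ K j, ∀ y ∈ L, x * y = y * x := by
        intro j
        obtain ⟨T, _, _, hT, -, -, hcT⟩ := hL.cov j
        have h2 : ∀ x ∈ K j, x ∈ L → ∀ z ∈ K j, x * z = z * x := by
          have hn : (L.subgroupOf (K j)).Normal := by
            constructor
            intro x hx a
            rw [Subgroup.mem_subgroupOf] at hx ⊢
            exact hLn a (hle j a.2) x hx
          rcases (hq (K j) T hT hcT).1 _ hn with h3 | h3
          · intro x hx hxL z hz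
            have h4 : (⟨x, hx⟩ : K j) ∈ Subgroup.center (K j) := h3 (by
              rw [Subgroup.mem_subgroupOf]
              exact hxL)
            have h5 := Subgroup.mem_center_iff.mp h4 ⟨z, hz⟩
            exact (congrArg Subtype.val h5).symm
          · exact absurd (Subgroup.subgroupOf_eq_top.mp h3) (hno j)
        apply tsl (perf hcT.1)
        intro x hx y hy z hz
        apply h2 _ _ _ z hz
        · have h3 : ⁅x, y⁆ = x * (y * x⁻¹ * y⁻¹) := by
            rw [commutatorElement_def]
            group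
          rw [h3]
          exact (K j).mul_mem hx (hnor j y (hLE hy) _ ((K j).inv_mem hx))
        · rw [commutatorElement_def]
          exact L.mul_mem (hLn x (hle j hx) y hy) (L.inv_mem hy)
      apply hnab L S hS hcL
      intro x hx y hy
      exact cen hL.sup (fun j z hz => (h1 j z hz x hx).symm) y (hLE hy)
    obtain ⟨j, hj⟩ := key
    refine ⟨j, ?_⟩
    rw [← hLdef]
    have hn : ((K j).subgroupOf L).Normal := by
      constructor
      intro x hx a
      rw [Subgroup.mem_subgroupOf] at hx ⊢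
      exact hnor j a (hLE a.2) x hx
    rcases (hq L S hS hcL).1 _ hn with h3 | h3
    · exfalso
      obtain ⟨T, _, _, hT, -, -, hcT⟩ := hL.cov j
      apply hnab (K j) T hT hcT
      intro x hx y hy
      have h4 : (⟨x, hj hx⟩ : L) ∈ Subgroup.center L := h3 (by
        rw [Subgroup.mem_subgroupOf]
        exact hx)
      have h5 := Subgroup.mem_center_iff.mp h4 ⟨y, hj hy⟩
      exact (congrArg Subtype.val h5).symm
    · exact le_antisymm (Subgroup.subgroupOf_eq_top.mp h3) hj

end Pool.Agent.PP.X2.H94
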