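import Pool.Agent.Helper94_PP.Rel
import Pool.Agent.Helper18_X2.Stmts

/-! # AWC, part X2, module RELC: the relative form -/

set_option autoImplicit false

open scoped BigOperators

noncomputable section

namespace Pool.Agent.PP.X2.H94

open Pool.Agent.Helper51_AWC Pool.Agent.Helper79_WRA Pool.Agent.Helper79_WRA.H91 Pool.Agent.PP
  Pool.Agent.PP.X2

/-- RELC from the master theorem. -/
theorem relC (hmain : MainCStmt) (hfxc : FxcStmt) (hhyt : HytStmt) : RelCStmt := by
  intro ℓ _ F _ hF 𝒜 hcl G _ _ N hN hO hg hy e he hp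
  rw [H96.rel_eq_top hF N hN e he, hmain ℓ F hF 𝒜 hcl G N hN hg hy e he hp]
  intro c hc1 hc2 hc3 _
  have hcm := mem_chainsOn.1 hc1
  obtain ⟨t1, t2⟩ := Pool.Agent.PP.H94.top_mem hcm.2.2 ⟨_, hcm.2.1⟩
  have htp : IsPGroup ℓ (top c) := (mem_psubIn.1 (hcm.1 t1)).2
  have hX1 := H96.centralizer_top_le t2
  have hX2 : stab c ≤ Subgroup.normalizer ((top c : Subgroup G) : Set G) := by
    intro x hx
    exact (Pool.Agent.PP.H94.mem_stab'.1 hx) _ t1
  have hidem : IsIdem (fun t : stab c => br (top c) e t) :=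
    (H20.brm ℓ F hF G (top c) (stab c) htp hX1 hX2).2.2 e he
  have hcent : cent N c = Subgroup.centralizer ((top c : Subgroup G) : Set G) ⊓ N :=
    H46.cent_eq hc1 N
  have hposc : Pos ℓ (fun t : stab c => br (top c) e t) ((cent N c).subgroupOf (stab c)) := by
    rw [hcent]
    exact H66.ps1 ℓ F hF G (top c) N htp hN hc3 e he hp (stab c) hX1 hX2
  have hnorm : ((cent N c).subgroupOf (stab c)).Normal := by
    constructor
    intro x hx g
    rw [Subgroup.mem_subgroupOf] at hx ⊢
    exact Pool.Agent.Helper79_WRA.H46.conj_mem_cent hN g.2 hx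
  by_cases hO2 : opCore ℓ ((cent N c).subgroupOf (stab c)) = ⊥
  · have hcls : Cls ℓ 𝒜 ((cent N c).subgroupOf (stab c)) := by
      rcases hfxc ℓ 𝒜 hcl G N hN hO hg (top c) htp (stab c) hX1 hX2 with h | h
      · exfalso
        apply h
        rw [← hcent]
        exact hO2
      · rw [hcent]
        exact h
    have hyp : Hyp ℓ F 𝒜 (stab c) :=
      (hhyt ℓ F 𝒜 G hy).2.2 (stab c) ((stab c).subtype.prod (stab c).subtype) (by
        intro x y hxy
        exact Subtype.ext (congrArg Prod.fst hxy))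
    exact hmain ℓ F hF 𝒜 hcl _ _ hnorm hcls hyp _ hidem hposc
  · exact H96.yzr ℓ F hF.prime _ _ hnorm hO2 _

end Pool.Agent.PP.X2.H94
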